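import Pool.Agent.Helper6.NX.GoalsD

/-!
NX-KEYB: sum over all colourings of a product over a permutation.
-/

namespace Pool.Agent.Helper33.NX

open Equiv Pool.Agent.Helper6.NX Pool.Agent.Helper15.An

section general

variable {P M : Type} [Fintype P] [DecidableEq P] [Fintype M] [DecidableEq M]

/-- resampling one colour -/
def updEquiv (p : P) : (P → M) × M ≃ (P → M) × M where
  toFun x := (Function.update x.1 p x.2, x.1 p)
  invFun x := (Function.update x.1 p x.2, x.1 p)
  left_inv x := by simp
  right_inv x := by simp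

theorem sum_upd (p : P) (F : (P → M) → ℝ) :
    ∑ χ : P → M, ∑ a : M, F (Function.update χ p a) = (Fintype.card M : ℝ) * ∑ χ, F χ := by
  rw [← Fintype.sum_prod_type' (f := fun (χ : P → M) (a : M) => F (Function.update χ p a))]
  rw [← Equiv.sum_comp (updEquiv p) (fun x : (P → M) × M => F (Function.update x.1 p x.2))]
  simp only [updEquiv, Equiv.coe_fn_mk, Function.update_idem, Function.update_eq_self]
  rw [Fintype.sum_prod_type]
  simp [Finset.mul_sum]

/-- product of matrices -/
def mm (x y : M → M → ℝ) (i j : M) : ℝ := ∑ k, x i k * y k j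

theorem mm_nonneg {x y : M → M → ℝ} (hx : ∀ i j, 0 ≤ x i j) (hy : ∀ i j, 0 ≤ y i j) (i j : M) :
    0 ≤ mm x y i j := Finset.sum_nonneg fun k _ => mul_nonneg (hx _ _) (hy _ _)

theorem mm_norm {x y : M → M → ℝ} (hx : ∑ i, ∑ j, x i j ^ 2 ≤ 1) (hy : ∑ i, ∑ j, y i j ^ 2 ≤ 1) :
    ∑ i, ∑ j, mm x y i j ^ 2 ≤ 1 := by
  have h1 : ∀ i j, mm x y i j ^ 2 ≤ (∑ k, x i k ^ 2) * (∑ k, y k j ^ 2) := fun i j =>
    Finset.sum_mul_sq_le_sq_mul_sq _ _ _
  calc ∑ i, ∑ j, mm x y i j ^ 2
      ≤ ∑ i, ∑ j, (∑ k, x i k ^ 2) * (∑ k, y k j ^ 2) :=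
        Finset.sum_le_sum fun i _ => Finset.sum_le_sum fun j _ => h1 i j
    _ = (∑ i, ∑ k, x i k ^ 2) * (∑ j, ∑ k, y k j ^ 2) := by
        rw [Finset.sum_mul_sum]
    _ = (∑ i, ∑ k, x i k ^ 2) * (∑ k, ∑ j, y k j ^ 2) := by
        rw [Finset.sum_comm (f := fun j k => y k j ^ 2)]
    _ ≤ 1 * 1 := by
        refine mul_le_mul hx hy ?_ zero_le_one
        exact Finset.sum_nonneg fun _ _ => Finset.sum_nonneg fun _ _ => sq_nonneg _
    _ = 1 := one_mul 1

theorem mm_trace {x y : M → M → ℝ} (hx : ∑ i, ∑ j, x i j ^ 2 ≤ 1) (hy : ∑ i, ∑ j, y i j ^ 2 ≤ 1) :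
    ∑ i, mm x y i i ≤ 1 := by
  have h1 : ∑ i, mm x y i i ≤ ∑ i, ∑ k, (x i k ^ 2 + y k i ^ 2) / 2 := by
    refine Finset.sum_le_sum fun i _ => Finset.sum_le_sum fun k _ => ?_
    nlinarith [sq_nonneg (x i k - y k i)]
  have h2 : ∑ i, ∑ k, (x i k ^ 2 + y k i ^ 2) / 2 =
      (∑ i, ∑ k, x i k ^ 2 + ∑ k, ∑ i, y k i ^ 2) / 2 := by
    rw [Finset.sum_comm (f := fun k i => y k i ^ 2), ← Finset.sum_add_distrib, Finset.sum_div]
    refine Finset.sum_congr rfl fun i _ => ?_
    rw [← Finset.sum_add_distrib, Finset.sum_div]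
  linarith

theorem gen_one (z : P → M → M → ℝ) :
    ∑ χ : P → M, ∏ u, z u (χ u) (χ u) = ∏ u, ∑ i, z u i i := by
  rw [Finset.prod_univ_sum, Fintype.piFinset_univ]

theorem gen (N : ℕ) : ∀ (g : Perm P) (z : P → M → M → ℝ),
    (Finset.univ.filter fun u => g u ≠ u).card ≤ N → (∀ u i j, 0 ≤ z u i j) →
    (∀ u, ∑ i, ∑ j, z u i j ^ 2 ≤ 1) →
    ∑ χ : P → M, ∏ u, z u (χ u) (χ (g u)) ≤ ∏ u, (if g u = u then ∑ i, z u i i else 1) := by
  induction N with
  | zero =>
    intro g z hN h0 h1
    have hg : ∀ u, g u = u := by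
      intro u
      by_contra hne
      have : u ∈ Finset.univ.filter fun u => g u ≠ u := by simp [hne]
      have hc := Finset.card_pos.2 ⟨u, this⟩
      omega
    simp only [hg, if_true]
    exact (gen_one z).le
  | succ N ih =>
    intro g z hN h0 h1
    by_cases hg : ∀ u, g u = u
    · simp only [hg, if_true]
      exact (gen_one z).le
    obtain ⟨p, hp⟩ := not_forall.1 hg
    set q := g p with hq
    set r := g⁻¹ p with hr
    have hgr : g r = p := by simp [hr]
    have hrp : r ≠ p := by
      intro h
      apply hp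
      rw [hq, ← h, hgr, h]
    rcases isEmpty_or_nonempty M with hM | hM
    · have : IsEmpty (P → M) := ⟨fun χ => hM.false (χ p)⟩
      rw [Finset.univ_eq_empty, Finset.sum_empty]
      refine Finset.prod_nonneg fun u _ => ?_
      split_ifs
      · exact Finset.sum_nonneg fun i _ => h0 u i i
      · exact zero_le_one
    have hc : 0 < (Fintype.card M : ℝ) := by exact_mod_cast Fintype.card_pos
    set c : ℝ := (Fintype.card M : ℝ) with hcdef
    set g' : Perm P := swap p q * g with hg'
    have hg'p : g' p = p := by simp [hg', ← hq]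
    have hg'r : g' r = q := by simp [hg', hgr]
    have hg'u : ∀ u, u ≠ p → u ≠ r → g' u = g u := by
      intro u hup hur
      simp only [hg', Perm.mul_apply]
      refine swap_apply_of_ne_of_ne ?_ ?_
      · intro h
        apply hur
        rw [hr, ← h]; simp
      · intro h
        apply hup
        exact g.injective (h.trans hq)
    set z' : P → M → M → ℝ := fun u =>
      if u = p then (fun i j => if i = j then c⁻¹ else 0) else
        if u = r then mm (z r) (z p) else z u with hz'
    have hz'p : z' p = fun i j => if i = j then c⁻¹ else 0 := by simp [hz']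
    have hz'r : z' r = mm (z r) (z p) := by simp [hz', hrp]
    have hz'u : ∀ u, u ≠ p → u ≠ r → z' u = z u := by
      intro u hup hur
      simp [hz', hup, hur]
    -- the sums agree
    have hsplit : ∀ (f : P → ℝ), ∏ u, f u = f p * (f r * ∏ u ∈ (Finset.univ.erase p).erase r, f u) := by
      intro f
      rw [← Finset.mul_prod_erase Finset.univ f (Finset.mem_univ p),
        ← Finset.mul_prod_erase (Finset.univ.erase p) f
          (Finset.mem_erase.2 ⟨hrp, Finset.mem_univ r⟩)]
    have hqp : q ≠ p := hp
    have hkey : ∀ χ : P → M, ∑ a : M, ∏ u, z u (Function.update χ p a u)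
        (Function.update χ p a (g u)) = c * ∏ u, z' u (χ u) (χ (g' u)) := by
      intro χ
      rw [hsplit (fun u => z' u (χ u) (χ (g' u)))]
      have e1 : ∀ a : M, ∏ u, z u (Function.update χ p a u) (Function.update χ p a (g u)) =
          z p a (χ q) * (z r (χ r) a *
            ∏ u ∈ (Finset.univ.erase p).erase r, z u (χ u) (χ (g u))) := by
        intro a
        rw [hsplit]
        rw [Function.update_self, ← hq, Function.update_of_ne hqp, Function.update_of_ne hrp, hgr,
          Function.update_self]
        congr 2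
        refine Finset.prod_congr rfl fun u hu => ?_
        have hur : u ≠ r := (Finset.mem_erase.1 hu).1
        have hup : u ≠ p := (Finset.mem_erase.1 (Finset.mem_erase.1 hu).2).1
        have hgu : g u ≠ p := by
          intro h
          apply hur
          rw [hr, ← h]; simp
        rw [Function.update_of_ne hup, Function.update_of_ne hgu]
      have e2 : ∏ u ∈ (Finset.univ.erase p).erase r, z' u (χ u) (χ (g' u)) =
          ∏ u ∈ (Finset.univ.erase p).erase r, z u (χ u) (χ (g u)) := by
        refine Finset.prod_congr rfl fun u hu => ?_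
        have hur : u ≠ r := (Finset.mem_erase.1 hu).1
        have hup : u ≠ p := (Finset.mem_erase.1 (Finset.mem_erase.1 hu).2).1
        rw [hz'u u hup hur, hg'u u hup hur]
      rw [e2, hz'p, hz'r, hg'p, hg'r]
      simp only [e1, if_true]
      rw [← mul_assoc c, mul_inv_cancel₀ hc.ne', one_mul, mm, Finset.sum_mul]
      refine Finset.sum_congr rfl fun a _ => ?_
      ring
    have hsum : ∑ χ : P → M, ∏ u, z u (χ u) (χ (g u)) = ∑ χ : P → M, ∏ u, z' u (χ u) (χ (g' u)) := by
      have h2 := sum_upd p (fun χ : P → M => ∏ u, z u (χ u) (χ (g u)))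
      simp only [hkey] at h2
      rw [← Finset.mul_sum] at h2
      exact (mul_left_cancel₀ hc.ne' h2).symm
    rw [hsum]
    -- apply the induction hypothesis
    have hcard : (Finset.univ.filter fun u => g' u ≠ u).card ≤ N := by
      have hlt : (Finset.univ.filter fun u => g' u ≠ u) ⊂ (Finset.univ.filter fun u => g u ≠ u) := by
        rw [Finset.ssubset_iff_of_subset]
        · exact ⟨p, by simp [← hq, hqp], by simp [hg'p]⟩
        · intro u hu
          simp only [Finset.mem_filter, Finset.mem_univ, true_and] at hu ⊢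
          by_cases hup : u = p
          · subst hup
            exact absurd hg'p hu
          by_cases hur : u = r
          · rw [hur, hgr]
            exact hrp.symm
          · rw [← hg'u u hup hur]
            exact hu
      have := Finset.card_lt_card hlt
      omega
    have hz'0 : ∀ u i j, 0 ≤ z' u i j := by
      intro u i j
      by_cases hup : u = p
      · subst hup
        rw [hz'p]
        dsimp only
        split_ifs
        · exact inv_nonneg.2 hc.le
        · exact le_rfl
      by_cases hur : u = r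
      · rw [hur, hz'r]
        exact mm_nonneg (h0 r) (h0 p) i j
      · rw [hz'u u hup hur]
        exact h0 u i j
    have hz'1 : ∀ u, ∑ i, ∑ j, z' u i j ^ 2 ≤ 1 := by
      intro u
      by_cases hup : u = p
      · rw [hup, hz'p]
        have : ∀ i : M, ∑ j : M, (if i = j then c⁻¹ else 0) ^ 2 = c⁻¹ ^ 2 := by
          intro i
          rw [Finset.sum_eq_single i]
          · simp
          · intro j _ hj
            simp [hj.symm]
          · intro h
            exact absurd (Finset.mem_univ i) h
        simp only [this, Finset.sum_const, Finset.card_univ, nsmul_eq_mul]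
        rw [← hcdef]
        have h3 : c * c⁻¹ ^ 2 = c⁻¹ := by
          field_simp
        rw [h3]
        refine inv_le_one_of_one_le₀ ?_
        rw [hcdef]
        exact_mod_cast Fintype.card_pos
      by_cases hur : u = r
      · rw [hur, hz'r]
        exact mm_norm (h1 r) (h1 p)
      · rw [hz'u u hup hur]
        exact h1 u
    refine (ih g' z' hcard hz'0 hz'1).trans ?_
    refine Finset.prod_le_prod (fun u _ => ?_) (fun u _ => ?_)
    · split_ifs
      · exact Finset.sum_nonneg fun i _ => hz'0 u i i
      · exact zero_le_one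
    · by_cases hup : u = p
      · rw [hup, if_pos hg'p, if_neg (show ¬ g p = p from hqp), hz'p]
        simp only [if_true, Finset.sum_const, Finset.card_univ, nsmul_eq_mul]
        rw [← hcdef, mul_inv_cancel₀ hc.ne']
      by_cases hur : u = r
      · rw [hur, if_neg (show ¬ g r = r by rw [hgr]; exact hrp.symm), hz'r]
        split_ifs
        · exact mm_trace (h1 r) (h1 p)
        · exact le_rfl
      · rw [hz'u u hup hur, hg'u u hup hur]

end general

theorem thmKEYB : S_KEYB := by
  intro n m g z h0 h1
  refine (gen _ g (fun _ => z) le_rfl (fun _ => h0) (fun _ => h1)).trans ?_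
  rw [Finset.prod_ite]
  simp [fixc]

end Pool.Agent.Helper33.NX
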